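import Pool.Agent.Helper55.RT.Spec2
import Pool.Agent.Helper79.RL.SysP

/-! RT, part HDN: thin sets have density zero over number fields. -/

set_option autoImplicit false
set_option linter.all false

namespace Pool.Agent.Helper79.Thin.HDN

open MvPolynomial Pool.Agent.W275.UB Pool.Agent.W275.ND Pool.Agent Pool.Agent.H927R2.RD
open Pool.Agent.R939.HI Pool.Agent.H936R2 H294UB Pool.Agent.W131.ND.Lmk
open Pool.Agent.Helper55.TT Pool.Agent.R939.EI NumberField
open Pool.Agent.Helper55.RG (S_SYK)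
open Pool.Agent.Helper71.RG.SYK (phi_inj ord_alg)
open Pool.Agent.Helper71.RG.Sys
open Pool.Agent.Helper55.RT (Q_HDN OffThin)

/-! ### Common denominators -/

section den

variable {k : Type} [Field k] [NumberField k]

theorem den_mv (n : ℕ) (h : MvPolynomial (Fin n) k) : ∃ (b : 𝓞 k) (H : MvPolynomial (Fin n) (𝓞 k)),
    b ≠ 0 ∧ MvPolynomial.map (algebraMap (𝓞 k) k) H = C (algebraMap (𝓞 k) k b) * h := by
  classical
  induction h using MvPolynomial.induction_on with
  | C a =>
    obtain ⟨u, d, hd, rfl⟩ := IsFractionRing.div_surjective (A := 𝓞 k) a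
    have hd0 : d ≠ 0 := nonZeroDivisors.ne_zero hd
    have hda : algebraMap (𝓞 k) k d ≠ 0 := by
      rw [Ne, map_eq_zero_iff _ (FaithfulSMul.algebraMap_injective (𝓞 k) k)]
      exact hd0
    refine ⟨d, C u, hd0, ?_⟩
    rw [map_C, ← C_mul, mul_div_cancel₀ _ hda]
  | add p q hp hq =>
    obtain ⟨b, H, hb, e⟩ := hp
    obtain ⟨b', H', hb', e'⟩ := hq
    refine ⟨b * b', C b' * H + C b * H', mul_ne_zero hb hb', ?_⟩
    rw [map_add, map_mul, map_mul, e, e', map_C, map_C, map_mul, C_mul]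
    ring
  | mul_X p i hp =>
    obtain ⟨b, H, hb, e⟩ := hp
    refine ⟨b, H * X i, hb, ?_⟩
    rw [map_mul, e, map_X, mul_assoc]

theorem den_poly (n : ℕ) (f : Polynomial (MvPolynomial (Fin n) k)) :
    ∃ (b : 𝓞 k) (F : Polynomial (MvPolynomial (Fin n) (𝓞 k))),
    b ≠ 0 ∧ F.map (MvPolynomial.map (algebraMap (𝓞 k) k)) =
      Polynomial.C (C (algebraMap (𝓞 k) k b)) * f := by
  classical
  induction f using Polynomial.induction_on' with
  | add p q hp hq =>
    obtain ⟨b, H, hb, e⟩ := hp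
    obtain ⟨b', H', hb', e'⟩ := hq
    refine ⟨b * b', Polynomial.C (C b') * H + Polynomial.C (C b) * H', mul_ne_zero hb hb', ?_⟩
    rw [Polynomial.map_add, Polynomial.map_mul, Polynomial.map_mul, e, e', Polynomial.map_C,
      Polynomial.map_C, map_C, map_C, map_mul, C_mul, Polynomial.C_mul]
    ring
  | monomial m a =>
    obtain ⟨b, H, hb, e⟩ := den_mv n a
    refine ⟨b, Polynomial.monomial m H, hb, ?_⟩
    rw [Polynomial.map_monomial, e, Polynomial.C_mul_monomial]

end den

section par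

variable {k : Type} [Field k] [NumberField k] {J : Type} [Fintype J]
  (ω : Module.Basis J ℤ (𝓞 k)) (n : ℕ)

/-- the index set -/
abbrev Io (n : ℕ) : Type := Σ l : Fin 1, Fin ((fun _ => n : Fin 1 → ℕ) l + 1)

/-- the generic coefficients -/
noncomputable def Z (i : Fin (n + 1)) : MvPolynomial (Io n × J) (𝓞 k) :=
  ∑ j, X ((⟨0, i⟩ : Io n), j) * C (ω j)

theorem map_Z {R : Type} [CommRing R] (σ : 𝓞 k →+* R) (x : Io n × J → R) (i : Fin (n + 1)) :
    eval₂Hom σ x (Z ω n i) = ∑ j, x (⟨0, i⟩, j) * σ (ω j) := by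
  rw [Z, map_sum]
  refine Finset.sum_congr rfl fun j _ => ?_
  rw [map_mul, eval₂Hom_X', eval₂Hom_C]

theorem kv_Z (x : Io n × J → ℤ) (i : Fin (n + 1)) :
    eval₂Hom (algebraMap (𝓞 k) k) (fun q => (x q : k)) (Z ω n i) = kv ω x ⟨0, i⟩ := by
  rw [map_Z]
  simp only [kv, elt, map_sum, map_mul, map_intCast]

/-- the parameters `a i = s * Z i` -/
noncomputable def ps {R : Type} [CommRing R] (φ : MvPolynomial (Io n × J) (𝓞 k) →+* R) (s : R) :
    MvPolynomial (Fin n) (𝓞 k) →+* R :=
  eval₂Hom (φ.comp C) fun i => s * φ (Z ω n i.castSucc)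

/-- lift of a system in the parameters -/
noncomputable def lg {τ : Type} : MvPolynomial τ (MvPolynomial (Fin n) (𝓞 k)) →+*
    MvPolynomial (τ ⊕ Unit) (MvPolynomial (Io n × J) (𝓞 k)) :=
  eval₂Hom (ps ω n C (X (Sum.inr ()))) fun t => X (Sum.inl t)

theorem eval_lg {τ R : Type} [CommRing R] (φ : MvPolynomial (Io n × J) (𝓞 k) →+* R)
    (y : τ ⊕ Unit → R) (G : MvPolynomial τ (MvPolynomial (Fin n) (𝓞 k))) :
    eval₂ φ y (lg ω n G) = eval₂ (ps ω n φ (y (Sum.inr ()))) (fun t => y (Sum.inl t)) G := by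
  have h : (eval₂Hom φ y).comp (lg ω n) =
      eval₂Hom (ps ω n φ (y (Sum.inr ()))) (fun t => y (Sum.inl t)) := by
    apply MvPolynomial.ringHom_ext'
    · apply MvPolynomial.ringHom_ext'
      · ext o
        simp [lg, ps]
      · intro i
        simp [lg, ps]
    · intro t
      simp [lg]
  exact congrArg (fun φ => φ G) h

/-- the field -/
abbrev MM (k : Type) [Field k] (n : ℕ) : Type := FractionRing (MvPolynomial (Fin n) k)

abbrev FF (k : Type) [Field k] (n : ℕ) (J : Type) : Type :=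
  FractionRing (MvPolynomial (Io n × J) (MM k n))

/-- the embedding of the polynomials -/
noncomputable def iF (k : Type) [Field k] (n : ℕ) (J : Type) :
    MvPolynomial (Fin n) k →+* FF k n J :=
  (algebraMap (MvPolynomial (Io n × J) (MM k n)) (FF k n J)).comp
    ((C : MM k n →+* MvPolynomial (Io n × J) (MM k n)).comp
      (algebraMap (MvPolynomial (Fin n) k) (MM k n)))

theorem iF_inj (k : Type) [Field k] (n : ℕ) (J : Type) : Function.Injective (iF k n J) := by
  intro x y h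
  have h1 := IsFractionRing.injective (MvPolynomial (Io n × J) (MM k n)) (FF k n J) h
  have h2 := C_injective (Io n × J) (MM k n) h1
  exact IsFractionRing.injective (MvPolynomial (Fin n) k) (MM k n) h2

theorem irr_F (J : Type) [Finite J] {f : Polynomial (MvPolynomial (Fin n) k)} (hf : f.Monic)
    (hirr : Irreducible (f.map (algebraMap (MvPolynomial (Fin n) k)
      (FractionRing (MvPolynomial (Fin n) k))))) : Irreducible (f.map (iF k n J)) := by
  classical
  set f₁ := f.map (algebraMap (MvPolynomial (Fin n) k) (MM k n)) with hf₁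
  have hm₁ : f₁.Monic := hf.map _
  set f₂ := f₁.map (C : MM k n →+* MvPolynomial (Io n × J) (MM k n)) with hf₂
  have hm₂ : f₂.Monic := hm₁.map _
  have h2 : Irreducible f₂ := by
    refine Polynomial.Monic.irreducible_of_irreducible_map
      (constantCoeff : MvPolynomial (Io n × J) (MM k n) →+* MM k n) f₂ hm₂ ?_
    rw [hf₂, Polynomial.map_map]
    have : (constantCoeff : MvPolynomial (Io n × J) (MM k n) →+* MM k n).comp C =
        RingHom.id _ := by
      ext x <;> simp
    rw [this, Polynomial.map_id]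
    exact hirr
  have h3 := (Polynomial.Monic.irreducible_iff_irreducible_map_fraction_map
    (K := FF k n J) hm₂).1 h2
  rw [hf₂, hf₁, Polynomial.map_map, Polynomial.map_map] at h3
  exact h3

/-- the substitution: the parameters `X i` are `Z i / Z n` -/
noncomputable def th (j0 : J) [DecidableEq J] (q : Io n × J) :
    MvPolynomial (Io n × J) (MvPolynomial (Fin n) k) :=
  if h : q.2 = j0 ∧ (q.1.2 : ℕ) < n then
    C (C (algebraMap (𝓞 k) k (ω j0))⁻¹) *
      (C (X ⟨q.1.2, h.2⟩) * (∑ j, X ((⟨0, Fin.last n⟩ : Io n), j) *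
          C (C (algebraMap (𝓞 k) k (ω j)))) -
        ∑ j ∈ Finset.univ.erase j0, X (q.1, j) * C (C (algebraMap (𝓞 k) k (ω j))))
  else X q

noncomputable def Th0 (j0 : J) [DecidableEq J] : MvPolynomial (Io n × J) (𝓞 k) →+*
    MvPolynomial (Io n × J) (MvPolynomial (Fin n) k) :=
  eval₂Hom (C.comp (C.comp (algebraMap (𝓞 k) k))) (th ω n j0)

theorem Th0_last (j0 : J) [DecidableEq J] : Th0 ω n j0 (Z ω n (Fin.last n)) =
    ∑ j, X ((⟨0, Fin.last n⟩ : Io n), j) * C (C (algebraMap (𝓞 k) k (ω j))) := by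
  rw [Th0, map_Z]
  refine Finset.sum_congr rfl fun j _ => ?_
  rw [th, dif_neg]
  · rfl
  · rintro ⟨-, h⟩
    exact absurd h (by simp)

theorem w_ne (j : J) : algebraMap (𝓞 k) k (ω j) ≠ 0 := by
  rw [Ne, map_eq_zero_iff _ (FaithfulSMul.algebraMap_injective (𝓞 k) k)]
  exact ω.ne_zero j

theorem Th0_cast (j0 : J) [DecidableEq J] (i : Fin n) : Th0 ω n j0 (Z ω n i.castSucc) =
    C (X i) * Th0 ω n j0 (Z ω n (Fin.last n)) := by
  rw [Th0_last, Th0, map_Z, ← Finset.add_sum_erase _ _ (Finset.mem_univ j0)]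
  have h1 : ∀ j ∈ Finset.univ.erase j0, th ω n j0 ((⟨0, i.castSucc⟩ : Io n), j) *
      (C.comp (C.comp (algebraMap (𝓞 k) k))) (ω j) =
      X ((⟨0, i.castSucc⟩ : Io n), j) * C (C (algebraMap (𝓞 k) k (ω j))) := by
    intro j hj
    rw [th, dif_neg]
    · rfl
    · rintro ⟨h, -⟩
      exact (Finset.ne_of_mem_erase hj) h
  rw [Finset.sum_congr rfl h1]
  have h2 : ((⟨0, i.castSucc⟩ : Io n), j0).2 = j0 ∧
      ((((⟨0, i.castSucc⟩ : Io n), j0).1.2 : ℕ) < n) := ⟨rfl, by simp⟩
  rw [th, dif_pos h2]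
  have h3 : (C.comp (C.comp (algebraMap (𝓞 k) k)) : 𝓞 k →+*
      MvPolynomial (Io n × J) (MvPolynomial (Fin n) k)) (ω j0) =
      C (C (algebraMap (𝓞 k) k (ω j0))) := rfl
  rw [h3]
  have h4 : (C (C (algebraMap (𝓞 k) k (ω j0))⁻¹) :
      MvPolynomial (Io n × J) (MvPolynomial (Fin n) k)) * C (C (algebraMap (𝓞 k) k (ω j0))) = 1 := by
    rw [← C_mul, ← C_mul, inv_mul_cancel₀ (w_ne ω j0), C_1, C_1]
  have h5 : (⟨((⟨0, i.castSucc⟩ : Io n), j0).1.2, h2.2⟩ : Fin n) = i := by
    apply Fin.ext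
    simp
  rw [h5]
  set A : MvPolynomial (Io n × J) (MvPolynomial (Fin n) k) :=
    ∑ j, X ((⟨0, Fin.last n⟩ : Io n), j) * C (C (algebraMap (𝓞 k) k (ω j)))
  set B : MvPolynomial (Io n × J) (MvPolynomial (Fin n) k) :=
    ∑ j ∈ Finset.univ.erase j0, X ((⟨0, i.castSucc⟩ : Io n), j) *
      C (C (algebraMap (𝓞 k) k (ω j)))
  linear_combination (C (X i) * A - B) * h4

theorem eval_th (j0 : J) [DecidableEq J] (x : Io n × J → k)
    (hx : ∑ j, x (⟨0, Fin.last n⟩, j) * algebraMap (𝓞 k) k (ω j) ≠ 0) (q : Io n × J) :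
    eval₂Hom (eval fun i : Fin n => (∑ j, x (⟨0, i.castSucc⟩, j) * algebraMap (𝓞 k) k (ω j)) /
      ∑ j, x (⟨0, Fin.last n⟩, j) * algebraMap (𝓞 k) k (ω j)) x (th ω n j0 q) = x q := by
  obtain ⟨⟨l, i⟩, j'⟩ := q
  rw [th]
  split_ifs with h
  · obtain ⟨h1, h2⟩ := h
    simp only at h1 h2
    subst h1
    have hl : l = 0 := Subsingleton.elim _ _
    subst hl
    simp only [map_mul, map_sub, map_sum, eval₂Hom_C, eval₂Hom_X', eval_C, eval_X]
    have h3 : (Fin.castSucc (⟨(i : ℕ), h2⟩ : Fin n)) = i := by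
      apply Fin.ext
      simp
    rw [h3, div_mul_cancel₀ _ hx, ← Finset.add_sum_erase _ _ (Finset.mem_univ j'),
      add_sub_cancel_right, mul_comm (x _), inv_mul_cancel_left₀ (w_ne ω j')]
  · rw [eval₂Hom_X']

theorem Th0_inj (j0 : J) [DecidableEq J] : Function.Injective (Th0 ω n j0) := by
  classical
  rw [injective_iff_map_eq_zero]
  intro P hP
  have hmap : Function.Injective (MvPolynomial.map (σ := Io n × J) (algebraMap (𝓞 k) k)) :=
    map_injective _ (FaithfulSMul.algebraMap_injective (𝓞 k) k)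
  have key : MvPolynomial.map (algebraMap (𝓞 k) k) P *
      MvPolynomial.map (algebraMap (𝓞 k) k) (Z ω n (Fin.last n)) = 0 := by
    apply MvPolynomial.funext
    intro x
    rw [map_zero, map_mul, eval_map, eval_map, ← coe_eval₂Hom, map_Z]
    by_cases hx : ∑ j, x (⟨0, Fin.last n⟩, j) * algebraMap (𝓞 k) k (ω j) = 0
    · rw [hx, mul_zero]
    · have h1 : (eval₂Hom (eval fun i : Fin n =>
          (∑ j, x (⟨0, i.castSucc⟩, j) * algebraMap (𝓞 k) k (ω j)) /
          ∑ j, x (⟨0, Fin.last n⟩, j) * algebraMap (𝓞 k) k (ω j)) x).comp (Th0 ω n j0) =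
          eval₂Hom (algebraMap (𝓞 k) k) x := by
        apply MvPolynomial.ringHom_ext'
        · ext o
          simp [Th0]
        · intro q
          rw [RingHom.comp_apply, Th0, eval₂Hom_X', eval_th ω n j0 x hx, eval₂Hom_X']
      have h2 := congrArg (fun φ => φ P) h1
      simp only [RingHom.comp_apply, hP, map_zero] at h2
      rw [← h2, zero_mul]
  rcases mul_eq_zero.1 key with h | h
  · exact hmap (by rw [h, map_zero])
  · exfalso
    have h1 := congrArg (eval fun q : Io n × J => if q = (⟨0, Fin.last n⟩, j0) then (1 : k) else 0) h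
    rw [eval_map, ← coe_eval₂Hom, map_Z, map_zero, Finset.sum_eq_single j0] at h1
    · rw [if_pos rfl, one_mul] at h1
      exact w_ne ω j0 h1
    · intro j _ hj
      rw [if_neg, zero_mul]
      intro h2
      exact hj (congrArg Prod.snd h2)
    · intro h2
      exact absurd (Finset.mem_univ _) h2

/-- **Systems in the parameters.** -/
theorem sysA (hS : S_SYK) {τ : Type} [Fintype τ]
    (S : Set (MvPolynomial τ (MvPolynomial (Fin n) (𝓞 k))))
    (halg : ∀ (Ω : Type) [Field Ω] [IsAlgClosed Ω] [Algebra (EE (Io n × J)) Ω]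
      (ψ : MvPolynomial (Fin n) (𝓞 k) →+* Ω) (y : τ → Ω),
      (∀ u, IsAlgebraic (EE (Io n × J)) (ψ u)) → (∀ o, ψ (C o) = 0 → o = 0) →
      (∀ g ∈ S, eval₂ ψ y g = 0) → ∀ t, IsAlgebraic (EE (Io n × J)) (y t))
    (hno : ∀ y : τ → FF k n J, ¬ ∀ g ∈ S,
      eval₂ ((iF k n J).comp (MvPolynomial.map (algebraMap (𝓞 k) k))) y g = 0) :
    D0 {x : Io n × J → ℤ | kv ω x ⟨0, Fin.last n⟩ ≠ 0 ∧ ∃ y : τ → k, ∀ g ∈ S,
      eval₂ (eval₂Hom (algebraMap (𝓞 k) k) fun i : Fin n =>
        kv ω x ⟨0, i.castSucc⟩ / kv ω x ⟨0, Fin.last n⟩) y g = 0} := by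
  classical
  obtain ⟨j0⟩ := exJ ω
  obtain ⟨Θ, hΘd⟩ : ∃ Θ : MvPolynomial (Io n × J) (𝓞 k) →+* FF k n J, Θ =
    (algebraMap (MvPolynomial (Io n × J) (MM k n)) (FF k n J)).comp
      ((MvPolynomial.map (algebraMap (MvPolynomial (Fin n) k) (MM k n))).comp (Th0 ω n j0)) :=
    ⟨_, rfl⟩
  have hΘ : Function.Injective Θ := by
    intro x y h
    rw [hΘd] at h
    have h1 := IsFractionRing.injective (MvPolynomial (Io n × J) (MM k n)) (FF k n J) h
    have h2 := map_injective (σ := Io n × J) (algebraMap (MvPolynomial (Fin n) k) (MM k n))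
      (IsFractionRing.injective (MvPolynomial (Fin n) k) (MM k n)) h1
    exact Th0_inj ω n j0 h2
  have hΘc : ∀ i : Fin n, Θ (Z ω n i.castSucc) =
      iF k n J (X i) * Θ (Z ω n (Fin.last n)) := by
    intro i
    simp only [hΘd, RingHom.comp_apply, Th0_cast, map_mul, map_C, iF]
  have hΘC : ∀ o : 𝓞 k, Θ (C o) = iF k n J (C (algebraMap (𝓞 k) k o)) := by
    intro o
    simp only [hΘd, RingHom.comp_apply, Th0, eval₂Hom_C, map_C, iF]
  have key := sysO hS ω ({X (Sum.inr ()) * C (Z ω n (Fin.last n)) - 1} ∪ (lg ω n '' S)) (by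
    intro Ω _ _ _ σ y hy
    set Φ : MvPolynomial (Io n × J) (𝓞 k) →+* Ω :=
      eval₂Hom σ fun q => gn (Io n × J) Ω (X q) with hΦ
    have hinj : Function.Injective Φ := phi_inj ω σ
    have hΦa : ∀ c : MvPolynomial (Io n × J) (𝓞 k), IsAlgebraic (EE (Io n × J)) (Φ c) := by
      intro c
      rw [hΦ, coe_eval₂Hom, eval₂_eq]
      refine Finset.sum_induction _ (IsAlgebraic (EE (Io n × J))) (fun _ _ => IsAlgebraic.add)
        isAlgebraic_zero ?_
      intro m _
      refine (ord_alg ω σ _).mul ?_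
      refine Finset.prod_induction _ (IsAlgebraic (EE (Io n × J))) (fun _ _ => IsAlgebraic.mul)
        isAlgebraic_one ?_
      intro q _
      exact (isAlgebraic_algebraMap _).pow _
    have h1 : y (Sum.inr ()) * Φ (Z ω n (Fin.last n)) = 1 := by
      have := hy _ (Or.inl rfl)
      rw [eval₂_sub, eval₂_mul, eval₂_X, eval₂_C, eval₂_one] at this
      exact sub_eq_zero.1 this
    have hs : IsAlgebraic (EE (Io n × J)) (y (Sum.inr ())) := by
      rw [eq_inv_of_mul_eq_one_left h1]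
      exact (hΦa _).inv
    have hψa : ∀ u, IsAlgebraic (EE (Io n × J)) (ps ω n Φ (y (Sum.inr ())) u) := by
      intro u
      rw [ps, coe_eval₂Hom, eval₂_eq]
      refine Finset.sum_induction _ (IsAlgebraic (EE (Io n × J))) (fun _ _ => IsAlgebraic.add)
        isAlgebraic_zero ?_
      intro m _
      refine (hΦa _).mul ?_
      refine Finset.prod_induction _ (IsAlgebraic (EE (Io n × J))) (fun _ _ => IsAlgebraic.mul)
        isAlgebraic_one ?_
      intro q _
      exact (hs.mul (hΦa _)).pow _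
    have h2 := halg Ω (ps ω n Φ (y (Sum.inr ()))) (fun t => y (Sum.inl t)) hψa (by
      intro o ho
      rw [ps, eval₂Hom_C, RingHom.comp_apply] at ho
      have h3 : (C o : MvPolynomial (Io n × J) (𝓞 k)) = 0 := hinj (by rw [ho, map_zero])
      exact C_injective _ _ (by rw [h3, C_0])) (by
      intro g hg
      rw [← eval_lg]
      exact hy _ (Or.inr ⟨g, hg, rfl⟩))
    rintro (t | ⟨⟩)
    · exact h2 t
    · exact hs) Θ hΘ (by
    intro y hy
    have h1 : y (Sum.inr ()) * Θ (Z ω n (Fin.last n)) = 1 := by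
      have := hy _ (Or.inl rfl)
      rw [eval₂_sub, eval₂_mul, eval₂_X, eval₂_C, eval₂_one] at this
      exact sub_eq_zero.1 this
    have h2 : ps ω n Θ (y (Sum.inr ())) =
        (iF k n J).comp (MvPolynomial.map (algebraMap (𝓞 k) k)) := by
      apply MvPolynomial.ringHom_ext'
      · ext o
        rw [ps]
        simp only [RingHom.comp_apply, eval₂Hom_C, map_C]
        exact hΘC o
      · intro i
        rw [ps, eval₂Hom_X', hΘc]
        have e1 : ((iF k n J).comp (MvPolynomial.map (algebraMap (𝓞 k) k))) (X i) =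
            iF k n J (X i) := by
          rw [RingHom.comp_apply, map_X]
        rw [e1]
        linear_combination (iF k n J (X i)) * h1
    refine hno (fun t => y (Sum.inl t)) fun g hg => ?_
    have h3 := hy _ (Or.inr ⟨g, hg, rfl⟩)
    rw [eval_lg, h2] at h3
    exact h3)
  intro ε hε
  refine (key ε hε).mono ?_
  rintro x ⟨hc, y, hy⟩
  have hcast : ∀ i, eval₂Hom (algebraMap (𝓞 k) k) (fun q => (x q : k)) (Z ω n i) =
      kv ω x ⟨0, i⟩ := kv_Z ω n x
  refine ⟨k, inferInstance, inferInstance, algebraMap (𝓞 k) k,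
    Sum.elim y (fun _ => (kv ω x ⟨0, Fin.last n⟩)⁻¹), ?_, ?_⟩
  · rw [card_J ω]
  · rintro g (rfl | ⟨g, hg, rfl⟩)
    · rw [eval₂_sub, eval₂_mul, eval₂_X, eval₂_C, eval₂_one, hcast]
      simp only [Sum.elim_inr]
      rw [inv_mul_cancel₀ hc, sub_self]
    · rw [eval_lg]
      have h2 : ps ω n (eval₂Hom (algebraMap (𝓞 k) k) fun q => (x q : k))
          ((kv ω x ⟨0, Fin.last n⟩)⁻¹) = eval₂Hom (algebraMap (𝓞 k) k) fun i : Fin n =>
          kv ω x ⟨0, i.castSucc⟩ / kv ω x ⟨0, Fin.last n⟩ := by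
        apply MvPolynomial.ringHom_ext'
        · ext o
          simp [ps]
        · intro i
          rw [ps, eval₂Hom_X', eval₂Hom_X', hcast, div_eq_mul_inv, mul_comm]
      simp only [Sum.elim_inr, Sum.elim_inl]
      rw [h2]
      exact hy g hg

/-- a polynomial in the parameters vanishes rarely -/
theorem dens_h (hS : S_SYK) {h : MvPolynomial (Fin n) k} (hh : h ≠ 0) :
    D0 {x : Io n × J → ℤ | kv ω x ⟨0, Fin.last n⟩ ≠ 0 ∧
      eval (fun i : Fin n => kv ω x ⟨0, i.castSucc⟩ / kv ω x ⟨0, Fin.last n⟩) h = 0} := by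
  classical
  obtain ⟨b, H, hb, e⟩ := den_mv n h
  have hbk : algebraMap (𝓞 k) k b ≠ 0 := by
    rw [Ne, map_eq_zero_iff _ (FaithfulSMul.algebraMap_injective (𝓞 k) k)]
    exact hb
  have key := sysA ω n hS (τ := Fin 0) {C H} (by
    intro Ω _ _ _ ψ y _ _ _ t
    exact t.elim0) (by
    intro y hy
    have h1 := hy _ rfl
    rw [eval₂_C, RingHom.comp_apply, e] at h1
    have h2 := (map_eq_zero_iff _ (iF_inj k n J)).1 h1
    rcases mul_eq_zero.1 h2 with h3 | h3
    · rw [C_eq_zero] at h3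
      exact hbk h3
    · exact hh h3)
  intro ε hε
  refine (key ε hε).mono ?_
  rintro x ⟨hc, hx⟩
  refine ⟨hc, fun t => t.elim0, ?_⟩
  rintro g rfl
  rw [eval₂_C]
  have h1 := congrArg (eval (fun i : Fin n => kv ω x ⟨0, i.castSucc⟩ /
    kv ω x ⟨0, Fin.last n⟩)) e
  rw [eval_map, map_mul, hx, mul_zero] at h1
  exact h1

/-- the system of a factorization -/
noncomputable def sF {O : Type} [CommRing O] (r t : ℕ) (b : O)
    (F : Polynomial (MvPolynomial (Fin n) O)) :
    Set (MvPolynomial (Fin r ⊕ Fin t) (MvPolynomial (Fin n) O)) :=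
  Set.range fun l : ℕ => (F.map C - Polynomial.C (C (C b)) *
    ((Polynomial.X ^ r + pl fun j : Fin r => X (Sum.inl j)) *
      (Polynomial.X ^ t + pl fun j : Fin t => X (Sum.inr j)))).coeff l

theorem eval_sF {O R : Type} [CommRing O] [CommRing R] (r t : ℕ) (b : O)
    (F : Polynomial (MvPolynomial (Fin n) O)) (ψ : MvPolynomial (Fin n) O →+* R)
    (y : Fin r ⊕ Fin t → R) :
    (∀ g ∈ sF n r t b F, eval₂ ψ y g = 0) ↔
      F.map ψ = Polynomial.C (ψ (C b)) *
        ((Polynomial.X ^ r + pl fun j : Fin r => y (Sum.inl j)) *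
          (Polynomial.X ^ t + pl fun j : Fin t => y (Sum.inr j))) := by
  have hψ : (eval₂Hom ψ y).comp C = ψ := by
    ext u
    · simp
    · simp
  have key : ∀ l, eval₂ ψ y ((F.map C - Polynomial.C (C (C b)) *
    ((Polynomial.X ^ r + pl fun j : Fin r => X (Sum.inl j)) *
      (Polynomial.X ^ t + pl fun j : Fin t => X (Sum.inr j)))).coeff l) =
      (F.map ψ - Polynomial.C (ψ (C b)) *
        ((Polynomial.X ^ r + pl fun j : Fin r => y (Sum.inl j)) *
          (Polynomial.X ^ t + pl fun j : Fin t => y (Sum.inr j)))).coeff l := by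
    intro l
    rw [← coe_eval₂Hom, ← Polynomial.coeff_map]
    simp only [Polynomial.map_sub, Polynomial.map_mul, Polynomial.map_add, Polynomial.map_pow,
      Polynomial.map_X, pl_map, Polynomial.map_map, hψ, Polynomial.map_C]
    simp
  constructor
  · intro h
    rw [← sub_eq_zero]
    ext l
    rw [← key, Polynomial.coeff_zero]
    exact h _ ⟨l, rfl⟩
  · rintro h1 g ⟨l, rfl⟩
    have h3 := key l
    rw [h1, sub_self, Polynomial.coeff_zero] at h3
    exact h3

theorem mon_pl {R : Type} [CommRing R] [Nontrivial R] {r : ℕ} (y : Fin r → R) :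
    (Polynomial.X ^ r + pl y).Monic ∧ (Polynomial.X ^ r + pl y).natDegree = r ∧
      ∀ j : Fin r, (Polynomial.X ^ r + pl y).coeff j = y j := by
  have hd : (pl y).degree < (r : WithBot ℕ) := pl_deg y
  refine ⟨Polynomial.monic_X_pow_add hd, ?_, ?_⟩
  · refine Polynomial.natDegree_eq_of_degree_eq_some ?_
    rw [Polynomial.degree_add_eq_left_of_degree_lt (by rw [Polynomial.degree_X_pow]; exact hd),
      Polynomial.degree_X_pow]
  · intro j
    rw [Polynomial.coeff_add, Polynomial.coeff_X_pow, if_neg (by have := j.2; omega), zero_add,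
      pl_coeff, dif_pos j.2]

theorem eq_mon {R : Type} [CommRing R] [Nontrivial R] {g : Polynomial R} (hg : g.Monic) :
    g = Polynomial.X ^ g.natDegree + pl fun j : Fin g.natDegree => g.coeff j := by
  ext l
  rw [Polynomial.coeff_add, Polynomial.coeff_X_pow, pl_coeff]
  rcases lt_trichotomy l g.natDegree with h | h | h
  · rw [if_neg h.ne, zero_add, dif_pos h]
  · rw [if_pos h, dif_neg (by omega), add_zero, h]
    exact hg
  · rw [if_neg h.ne', dif_neg (by omega), add_zero, Polynomial.coeff_eq_zero_of_natDegree_lt h]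

/-- the factorizations of one polynomial -/
theorem dens_f (hS : S_SYK) {f : Polynomial (MvPolynomial (Fin n) k)} (hf : f.Monic)
    (hirr : Irreducible (f.map (algebraMap (MvPolynomial (Fin n) k)
      (FractionRing (MvPolynomial (Fin n) k))))) (r t : ℕ) (hr : 0 < r) (ht : 0 < t) :
    D0 {x : Io n × J → ℤ | kv ω x ⟨0, Fin.last n⟩ ≠ 0 ∧
      ∃ u v : Polynomial k, u.Monic ∧ v.Monic ∧ u.natDegree = r ∧ v.natDegree = t ∧
      u * v = f.map (eval fun i : Fin n => kv ω x ⟨0, i.castSucc⟩ / kv ω x ⟨0, Fin.last n⟩)} := by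
  classical
  obtain ⟨b, F, hb, e⟩ := den_poly n f
  have hbk : algebraMap (𝓞 k) k b ≠ 0 := by
    rw [Ne, map_eq_zero_iff _ (FaithfulSMul.algebraMap_injective (𝓞 k) k)]
    exact hb
  have key := sysA ω n hS (sF n r t b F) (by
    intro Ω _ _ _ ψ y hψ hψ0 hy
    rw [eval_sF] at hy
    obtain ⟨gm, gd, gc⟩ := mon_pl fun j : Fin r => y (Sum.inl j)
    obtain ⟨hm, hd, hc⟩ := mon_pl fun j : Fin t => y (Sum.inr j)
    set g := Polynomial.X ^ r + pl fun j : Fin r => y (Sum.inl j)
    set h := Polynomial.X ^ t + pl fun j : Fin t => y (Sum.inr j)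
    have hb0 : ψ (C b) ≠ 0 := fun h0 => hb (hψ0 b h0)
    have hgh : g * h = Polynomial.C (ψ (C b))⁻¹ * F.map ψ := by
      rw [hy, ← mul_assoc, ← Polynomial.C_mul, inv_mul_cancel₀ hb0, Polynomial.C_1, one_mul]
    have hco : ∀ l, IsAlgebraic (EE (Io n × J)) ((g * h).coeff l) := by
      intro l
      rw [hgh, Polynomial.coeff_C_mul, Polynomial.coeff_map]
      exact (hψ _).inv.mul (hψ _)
    obtain ⟨h1, h2⟩ := isAlg_factor (E := EE (Io n × J)) (gm.mul hm).ne_zero hco gm rfl
    rintro (j | j)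
    · have := h1 j
      rw [gc j] at this
      exact this
    · have := h2 j
      rw [hc j] at this
      exact this) (by
    intro y hy
    rw [eval_sF] at hy
    obtain ⟨gm, gd, gc⟩ := mon_pl fun j : Fin r => y (Sum.inl j)
    obtain ⟨hm, hd, hc⟩ := mon_pl fun j : Fin t => y (Sum.inr j)
    set g := Polynomial.X ^ r + pl fun j : Fin r => y (Sum.inl j)
    set h := Polynomial.X ^ t + pl fun j : Fin t => y (Sum.inr j)
    rw [← Polynomial.map_map, e, Polynomial.map_mul, Polynomial.map_C, RingHom.comp_apply,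
      map_C] at hy
    have hb0 : (Polynomial.C (iF k n J (C (algebraMap (𝓞 k) k b))) :
        Polynomial (FF k n J)) ≠ 0 := by
      rw [Ne, Polynomial.C_eq_zero, map_eq_zero_iff _ (iF_inj k n J), C_eq_zero]
      exact hbk
    have h1 := mul_left_cancel₀ hb0 hy
    have h2 := irr_F (n := n) J hf hirr
    rw [h1] at h2
    rcases h2.isUnit_or_isUnit rfl with h3 | h3
    · have := Polynomial.natDegree_eq_zero_of_isUnit h3
      omega
    · have := Polynomial.natDegree_eq_zero_of_isUnit h3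
      omega)
  intro ε hε
  refine (key ε hε).mono ?_
  rintro x ⟨hc, u, v, hu, hv, hur, hvt, huv⟩
  refine ⟨hc, Sum.elim (fun j => u.coeff j) (fun j => v.coeff j), ?_⟩
  rw [eval_sF]
  have eu := eq_mon hu
  have ev := eq_mon hv
  subst hur
  subst hvt
  simp only [Sum.elim_inl, Sum.elim_inr]
  rw [← eu, ← ev, huv]
  have h1 := congrArg (Polynomial.map (eval fun i : Fin n =>
    kv ω x ⟨0, i.castSucc⟩ / kv ω x ⟨0, Fin.last n⟩)) e
  rw [Polynomial.map_map, Polynomial.map_mul, Polynomial.map_C, eval_C] at h1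
  rw [coe_eval₂Hom, eval₂_C, ← h1]
  congr 1
  apply MvPolynomial.ringHom_ext'
  · ext o
    simp
  · intro i
    simp

end par

theorem main (hS : S_SYK) : Q_HDN := by
  classical
  intro k _ _ J _ ω n hn Q hQ
  obtain ⟨h, S, hh, hS', hQ'⟩ := hQ
  have h0 := dens_top (n := fun _ : Fin 1 => n) ω (0 : Fin 1)
  have h1 := dens_h ω n hS hh
  have h2 : D0 {x : Io n × J → ℤ | kv ω x ⟨0, Fin.last n⟩ ≠ 0 ∧ ∃ f ∈ S,
      ¬ Irreducible (f.map (eval fun i : Fin n =>
        kv ω x ⟨0, i.castSucc⟩ / kv ω x ⟨0, Fin.last n⟩))} := by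
    have key := D0.biUnion (S.attach) (fun f => {x : Io n × J → ℤ | kv ω x ⟨0, Fin.last n⟩ ≠ 0 ∧
      ¬ Irreducible ((f : Polynomial (MvPolynomial (Fin n) k)).map (eval fun i : Fin n =>
        kv ω x ⟨0, i.castSucc⟩ / kv ω x ⟨0, Fin.last n⟩))}) (by
      intro f _
      obtain ⟨hf, hirr⟩ := hS' f f.2
      have k1 := D0.biUnion (Finset.range ((f : Polynomial (MvPolynomial (Fin n) k)).natDegree + 1) ×ˢ
        Finset.range ((f : Polynomial (MvPolynomial (Fin n) k)).natDegree + 1))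
        (fun p => {x : Io n × J → ℤ | (kv ω x ⟨0, Fin.last n⟩ ≠ 0 ∧
          ∃ u v : Polynomial k, u.Monic ∧ v.Monic ∧ u.natDegree = p.1 + 1 ∧ v.natDegree = p.2 + 1 ∧
          u * v = (f : Polynomial (MvPolynomial (Fin n) k)).map (eval fun i : Fin n =>
            kv ω x ⟨0, i.castSucc⟩ / kv ω x ⟨0, Fin.last n⟩))}) (by
          intro p _
          exact dens_f ω n hS hf hirr (p.1 + 1) (p.2 + 1) (Nat.succ_pos _) (Nat.succ_pos _))
      intro ε hε
      refine (k1 ε hε).mono ?_
      rintro x ⟨hc, hx⟩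
      have hfm : ((f : Polynomial (MvPolynomial (Fin n) k)).map (eval fun i : Fin n =>
        kv ω x ⟨0, i.castSucc⟩ / kv ω x ⟨0, Fin.last n⟩)).Monic := hf.map _
      have hfd : ((f : Polynomial (MvPolynomial (Fin n) k)).map (eval fun i : Fin n =>
        kv ω x ⟨0, i.castSucc⟩ / kv ω x ⟨0, Fin.last n⟩)).natDegree =
          (f : Polynomial (MvPolynomial (Fin n) k)).natDegree := hf.natDegree_map _
      rw [hfm.irreducible_iff_natDegree] at hx
      push Not at hx
      have hne1 : (f : Polynomial (MvPolynomial (Fin n) k)).map (eval fun i : Fin n =>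
        kv ω x ⟨0, i.castSucc⟩ / kv ω x ⟨0, Fin.last n⟩) ≠ 1 := by
        intro h1
        rw [h1, Polynomial.natDegree_one] at hfd
        have h2 : (f : Polynomial (MvPolynomial (Fin n) k)) = 1 :=
          Polynomial.eq_one_of_monic_natDegree_zero hf hfd.symm
        rw [h2, Polynomial.map_one] at hirr
        exact hirr.not_isUnit isUnit_one
      obtain ⟨u, v, hu, hv, huv, hu0, hv0⟩ := hx hne1
      have hsum : u.natDegree + v.natDegree =
          (f : Polynomial (MvPolynomial (Fin n) k)).natDegree := by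
        rw [← hfd, ← huv, hu.natDegree_mul hv]
      simp only [Set.mem_iUnion, exists_prop]
      refine ⟨(u.natDegree - 1, v.natDegree - 1), ?_, hc, u, v, hu, hv, ?_, ?_, huv⟩
      · rw [Finset.mem_product, Finset.mem_range, Finset.mem_range]
        simp only
        omega
      · simp only
        omega
      · simp only
        omega)
    intro ε hε
    refine (key ε hε).mono ?_
    rintro x ⟨hc, f, hf, hx⟩
    simp only [Set.mem_iUnion, exists_prop]
    exact ⟨⟨f, hf⟩, Finset.mem_attach _ _, hc, hx⟩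
  intro ε hε
  refine (((h0.union h1).union h2) ε hε).mono ?_
  intro x hx
  by_contra hcon
  simp only [Set.mem_union, not_or, Set.mem_ofPred_eq, not_not] at hcon
  obtain ⟨⟨c0, c1⟩, c2⟩ := hcon
  have hc : kv ω x ⟨0, Fin.last n⟩ ≠ 0 := c0.ne_zero
  apply hx
  refine ⟨hc, hQ' _ ?_ ?_⟩
  · intro h3
    exact c1 ⟨hc, h3⟩
  · intro f hf
    by_contra h3
    exact c2 ⟨hc, f, hf, h3⟩

end Pool.Agent.Helper79.Thin.HDN
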